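import Pool.Agent.Q299.RM.Sch
import Pool.Agent.Q299.TD.Reached

/-!
MP_6a3dac_ag: proper flat models over the ring of integers, with the given generic fibre, which are
regular at the centres of all valuations in a class which is closed under composition and under
towers without defect, in all dimensions.

Let `E` be a number field, `X` an integral projective scheme over `E` (for example a smooth
projective variety) with the function field `F`. Let `V₁, ..., V_r` be valuation rings of `F`, at
most one over each prime number, such that `V_i` lies over the prime number `p i` and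
`V_i[1 / p i] = F` (for example, any valuation of rank one over `p i`, or a composite of such a
valuation and any valuation of its residue field). Suppose that the `V_i` belong to the smallest
class of valuation rings over `𝓞 E` which contains

* the trivial valuations, the discrete valuations of arbitrary finite rank (more generally the
  finite composites of discrete and divergent valuations), the divergent valuations, and the
  valuations which are log uniformizable on all `𝓞 E`-algebras of finite type with the given
  fraction field (by Cossart and Piltant all valuations if these algebras have dimension at most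
  `3`);

and which is closed under composition and under towers without defect (`IsReached`). Then `X` has an
integral proper flat model over `𝓞 E` which is regular at the centres of `V₁, ..., V_r`.

So the local form of the question (existence of a regular proper flat model) has a positive
answer at these valuations: the point is that the generic fibre `X` is not changed. It is proved by
blowings-up with centres in the fibres over the `p i`. The starting result `BoundedDegree` has models
which are regular along the closures of the closed points of `X` of bounded degree; the centres of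
these closures are the centres of composites of valuations trivial on `E` and discrete
valuations of number fields (`V[1 / p] ≠ F`).
-/

set_option autoImplicit false

open AlgebraicGeometry CategoryTheory CategoryTheory.Limits NumberField

namespace Pool.Agent.Results.MP_6a3dac_ag.RegularAlongValuations

open Pool.Agent.Q299.TD (IsReached allGP_of_isReached)
open Pool.Agent.Q299.RM (IsFunctionField IsRegularAtCentre main)

/-- `X` with the morphism `f` to `Spec E` is projective over `E`: it is `Proj` of a graded
`E`-algebra with degree zero part `E`, generated by finitely many elements of degree one. -/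
def IsProjectiveOver {E : Type} [Field E] {X : Scheme.{0}} (f : X ⟶ Spec (CommRingCat.of E)) :
    Prop :=
  ∃ (A : Type) (_ : CommRing A) (_ : Algebra E A) (𝒜 : ℕ → Submodule E A) (_ : GradedAlgebra 𝒜),
    (∀ a ∈ 𝒜 0, ∃ q : E, algebraMap E A q = a) ∧
    (∃ s : Finset A, (∀ a ∈ s, a ∈ 𝒜 1) ∧ Algebra.adjoin E (s : Set A) = ⊤) ∧
    ∃ i : X ≅ Proj 𝒜,
      i.hom ≫ Proj.toSpecZero 𝒜 ≫ Spec.map (CommRingCat.ofHom (algebraMap E (𝒜 0))) = f

/-- The valuation ring `V` of `F` lies over the prime number `p`, and `V[1 / p] = F`. -/
def LiesOver {F : Type} [Field F] (V : ValuationSubring F) (p : ℕ) : Prop :=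
  p.Prime ∧ V.valuation (p : F) < 1 ∧ ∀ z : F, ∃ n : ℕ, (p : F) ^ n * z ∈ V

/-- A prime number is a unit in the valuation rings over other prime numbers. -/
lemma LiesOver.inv_mem {F : Type} [Field F] {V : ValuationSubring F} {p q : ℕ}
    (hV : LiesOver V p) (hq : q.Prime) (hpq : p ≠ q) : ((q : F))⁻¹ ∈ V := by
  by_contra h
  have h1 : V.valuation (q : F) < 1 := by
    rw [← V.valuation_le_one_iff, map_inv₀, not_le] at h
    by_cases h0 : V.valuation (q : F) = 0
    · rw [h0]; exact zero_lt_one
    · exact (one_lt_inv₀ (zero_lt_iff.2 h0)).1 h
  have hc : Nat.Coprime p q := (Nat.coprime_primes hV.1 hq).2 hpq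
  have h2 : ((p : ℤ) * p.gcdA q + (q : ℤ) * p.gcdB q : ℤ) = 1 := by
    rw [← Nat.gcd_eq_gcd_ab, hc.gcd_eq_one]
    rfl
  have h3 : (p : F) * (p.gcdA q : F) + (q : F) * (p.gcdB q : F) = 1 := by
    have h5 := congrArg (Int.cast : ℤ → F) h2
    push_cast at h5
    exact h5
  have hint : ∀ m : ℤ, V.valuation (m : F) ≤ 1 := fun m =>
    (V.valuation_le_one_iff _).2 (intCast_mem V m)
  have h4 : V.valuation ((p : F) * (p.gcdA q : F) + (q : F) * (p.gcdB q : F)) < 1 := by
    refine Valuation.map_add_lt _ ?_ ?_
    · rw [map_mul]
      exact mul_lt_one_of_lt_of_le hV.2.1 (hint _)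
    · rw [map_mul]
      exact mul_lt_one_of_lt_of_le h1 (hint _)
  rw [h3, map_one] at h4
  exact lt_irrefl _ h4

/-- Let `E` be a number field, let `X` be an integral projective scheme over `E` with the function
field `F` (given by the morphism `η : Spec F ⟶ X`), and let `S` be a finite set of valuation rings of
`F` in the class `IsReached (𝓞 E)`: they are obtained from trivial, discrete, divergent, or log
uniformizable valuations by composition and by towers of transcendental steps without limit key
polynomials and finite extensions without defect. Suppose that each `V ∈ S` lies over a prime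
number `p` with `V[1 / p] = F`, and that at most one `V ∈ S` lies over each `p`. Then `X` has an
integral proper flat model `Y` over the ring of integers which is regular at the centres of all
`V ∈ S`. -/
theorem result (E : Type) [Field E] [NumberField E] (X : Scheme.{0}) [IsIntegral X]
    (f : X ⟶ Spec (CommRingCat.of E)) (hX : IsProjectiveOver f)
    (F : Type) [Field F] [Algebra E F] (η : Spec (CommRingCat.of F) ⟶ X) (hη : IsFunctionField η)
    (hηf : η ≫ f = Spec.map (CommRingCat.ofHom (algebraMap E F)))
    (S : Finset (ValuationSubring F)) (hS : ∀ V ∈ S, ∃ p : ℕ, LiesOver V p)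
    (hSp : ∀ V ∈ S, ∀ V' ∈ S, ∀ p : ℕ, LiesOver V p → LiesOver V' p → V = V')
    (hV : ∀ V ∈ S, IsReached (𝓞 E) ((algebraMap E F).comp (algebraMap (𝓞 E) E)) V) :
    ∃ (Y : Scheme.{0}) (g : Y ⟶ Spec (CommRingCat.of (𝓞 E)))
      (e : pullback g (Spec.map (CommRingCat.ofHom (algebraMap (𝓞 E) E))) ≅ X),
      IsIntegral Y ∧ IsProper g ∧ Flat g ∧
      e.hom ≫ f = pullback.snd g (Spec.map (CommRingCat.ofHom (algebraMap (𝓞 E) E))) ∧
      ∀ V ∈ S, IsRegularAtCentre (η ≫ e.inv ≫ pullback.fst _ _) V := by
  classical
  obtain ⟨A, _, _, 𝒜, _, h0, ⟨s, hs, hgen⟩, i, hif⟩ := hX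
  let _ : Algebra (𝓞 E) F := ((algebraMap E F).comp (algebraMap (𝓞 E) E)).toAlgebra
  have hst : IsScalarTower (𝓞 E) E F := IsScalarTower.of_algebraMap_eq' rfl
  have hinj : Function.Injective (algebraMap (𝓞 E) F) := by
    rw [IsScalarTower.algebraMap_eq (𝓞 E) E F]
    exact (algebraMap E F).injective.comp (IsFractionRing.injective (𝓞 E) E)
  have hHJ : Pool.Agent.TH188.QS.HJ (𝓞 E) := Pool.Agent.TH188.QS.hj_dedekind
  have hOV : ∀ V ∈ S, ∀ o : 𝓞 E, algebraMap (𝓞 E) F o ∈ V := by
    intro V _ o
    have h1 : IsIntegral ℤ (algebraMap (𝓞 E) F o) := (RingOfIntegers.isIntegral o).algebraMap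
    have h2 : IsIntegral V (algebraMap (𝓞 E) F o) := h1.tower_top
    obtain ⟨v, hv⟩ := IsIntegrallyClosed.isIntegral_iff.1 h2
    rw [← hv]
    exact v.2
  obtain ⟨M, g, hg, hg0, e, hM, he, hall⟩ := main (O := 𝓞 E) f 𝒜 h0 s hs hgen i hif η hη hηf S
    hOV (by
      intro V hVS
      obtain ⟨p, hp⟩ := hS V hVS
      have hpF : algebraMap (𝓞 E) F (p : 𝓞 E) = (p : F) := map_natCast _ p
      refine ⟨(p : 𝓞 E), by exact_mod_cast hp.1.ne_zero, fun z => ?_, fun V' hV'S hne => ?_⟩
      · rw [hpF]
        exact hp.2.2 z
      · rw [hpF]
        obtain ⟨q, hq⟩ := hS V' hV'S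
        refine hq.inv_mem hp.1 ?_
        rintro rfl
        exact hne (hSp V' hV'S V hVS q hq hp))
    (fun V hVS => allGP_of_isReached hHJ _ V (hV V hVS))
  exact ⟨_, Pool.Agent.H968R2.Quad.modelMap M, e,
    Pool.Agent.H968R2.Quad.model_integral M g hg hg0,
    Pool.Agent.H968R2.Quad.modelMap_isProper M hinj hM,
    Pool.Agent.TH188.ARC.modelMap_flat hinj M g hg hg0, he, hall⟩

end Pool.Agent.Results.MP_6a3dac_ag.RegularAlongValuations
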